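import Pool.Agent.Lib_helper57.QI.E0

/-!
# Transport of centres (common lemma of EN and EK)
-/

set_option autoImplicit false

namespace H57.QI

variable {H : Type} [Group H]

namespace Auto

variable {D : Geo H} (A : Auto D)

/-- all loops with `e ≠ 0` at a vertical state which is not a nice root have the same centre -/
theorem cen_eq_of_not_root {s : A.Q} (hl : A.live s) (hn : ¬ A.NiceRoot s) {z z' : List A.S}
    (hz : A.st s z = s) (hz' : A.st s z' = s) (he : D.e (A.val z) ≠ 0) (he' : D.e (A.val z') ≠ 0) :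
    D.cen (A.val z) = D.cen (A.val z') := by
  by_contra hne
  exact hn ⟨hl, z, z', hz, hz', he, he', hne⟩

/-- transport of centres along a path inside a component -/
theorem transport {s : A.Q} (hl : A.live s) (hn : ¬ A.NiceRoot s) {V : List A.S}
    (hV : A.sc s (A.st s V)) {z z' : List A.S} (hz : A.st s z = s)
    (hz' : A.st (A.st s V) z' = A.st s V) (he : D.e (A.val z) ≠ 0) (he' : D.e (A.val z') ≠ 0) :
    D.act (A.val V) (D.cen (A.val z')) = D.cen (A.val z) := by
  obtain ⟨_, V', hV'⟩ := hV
  have hloop : ∀ i, A.st s (V ++ rep z' i ++ V') = s := by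
    intro i
    rw [A.st_append, A.st_append, A.st_rep hz', hV']
  have heq : ∀ i : ℕ, D.e (A.val (V ++ rep z' i ++ V')) =
      D.e (A.val V) + i * D.e (A.val z') + D.e (A.val V') := by
    intro i
    rw [A.val_append, A.val_append, A.val_rep, D.e_mul, D.e_mul, D.e_pow]
  obtain ⟨i, h1, h2⟩ : ∃ i : ℕ, D.e (A.val (V ++ rep z' i ++ V')) ≠ 0 ∧
      D.e (A.val (V ++ rep z' (i + 1) ++ V')) ≠ 0 := by
    by_cases h0 : D.e (A.val (V ++ rep z' 0 ++ V')) ≠ 0 ∧ D.e (A.val (V ++ rep z' (0 + 1) ++ V')) ≠ 0
    · exact ⟨0, h0⟩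
    · refine ⟨2, ?_, ?_⟩
      · rw [heq] at h0 ⊢
        rw [heq] at h0
        intro h3
        apply h0
        constructor
        · intro h4; apply he'; push_cast at h3 h4; linarith
        · intro h4; apply he'; push_cast at h3 h4; linarith
      · rw [heq] at h0 ⊢
        rw [heq] at h0
        intro h3
        apply h0
        constructor
        · intro h4; apply he'; push_cast at h3 h4; linarith
        · intro h4; apply he'; push_cast at h3 h4; linarith
  have c1 := A.cen_eq_of_not_root hl hn hz (hloop i) he h1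
  have c2 := A.cen_eq_of_not_root hl hn hz (hloop (i + 1)) he h2
  have f1 := D.act_cen h1
  have f2 := D.act_cen h2
  rw [← c1] at f1
  rw [← c2] at f2
  have hval : A.val (V ++ rep z' (i + 1) ++ V') =
      A.val V * A.val z' * (A.val V)⁻¹ * A.val (V ++ rep z' i ++ V') := by
    simp only [A.val_append, A.val_rep, pow_succ']
    group
  rw [hval, D.act_mul, f1, D.act_mul, D.act_mul] at f2
  have f3 : D.act (A.val z') (D.act (A.val V)⁻¹ (D.cen (A.val z))) =
      D.act (A.val V)⁻¹ (D.cen (A.val z)) := by
    have := congrArg (D.act (A.val V)⁻¹) f2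
    rwa [D.act_inv_act] at this
  have f4 := D.eq_cen he' f3
  rw [← f4, D.act_act_inv]

open Classical in
/-- the common centre of a vertical state -/
noncomputable def cs (s : A.Q) : ℂ := if h : A.Vert s then D.cen (A.val h.2.choose) else 0

theorem cs_eq {s : A.Q} (h : A.Vert s) : ∃ z, A.st s z = s ∧ D.e (A.val z) ≠ 0 ∧
    A.cs s = D.cen (A.val z) := by
  refine ⟨h.2.choose, h.2.choose_spec.1, h.2.choose_spec.2, ?_⟩
  rw [cs, dif_pos h]

/-- the centre `cs` is transported by paths inside a component (without nice root) -/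
theorem act_cs {s : A.Q} (h : A.Vert s) (hn : ¬ A.NiceRoot s) {V : List A.S}
    (hV : A.sc s (A.st s V)) : D.act (A.val V) (A.cs (A.st s V)) = A.cs s := by
  obtain ⟨z, hz, he, hc⟩ := A.cs_eq h
  obtain ⟨z', hz', he', hc'⟩ := A.cs_eq (A.Vert_sc h hV)
  rw [hc, hc']
  exact A.transport h.1 hn hV hz hz' he he'

end Auto

end H57.QI
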