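import Pool.Agent.Lib_helper2.QI.Cen

/-!
# Lemma K
-/

set_option autoImplicit false

namespace H57.QI

variable {H : Type} [Group H]

namespace Geo

variable (D : Geo H)

/-- the branching point of `[1, V]` and `[1, Y⁻¹]` -/
theorem branch (Y V : H) : ∃ h, 2 * D.L h + D.L (Y * V) = D.L Y + D.L V ∧
    D.L h + D.L (h⁻¹ * V) = D.L V ∧ D.L (Y * h) + D.L ((Y * h)⁻¹ * Y) = D.L Y := by
  have h1 := D.L_mul Y V
  have h2 := D.L_mul (Y * V) V⁻¹
  rw [mul_inv_cancel_right, D.L_inv] at h2
  obtain ⟨r, hr⟩ := D.L_even Y V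
  obtain ⟨m, hm⟩ : ∃ m, 2 * m + D.L (Y * V) = D.L Y + D.L V := ⟨r - D.L (Y * V), by omega⟩
  obtain ⟨h, h3, h4⟩ := D.L_geod V m (by omega)
  have h5 := D.L_hyp h V Y⁻¹
  have e1 : V⁻¹ * Y⁻¹ = (Y * V)⁻¹ := by group
  have e2 : h⁻¹ * Y⁻¹ = (Y * h)⁻¹ := by group
  rw [e1, e2, D.L_inv, D.L_inv, D.L_inv, h3, h4] at h5
  have e3 : (Y * h)⁻¹ * Y = h⁻¹ := by group
  have h6 := D.L_mul (Y * h) h⁻¹
  rw [mul_inv_cancel_right, D.L_inv] at h6
  refine ⟨h, by omega, by omega, ?_⟩
  rw [e3, D.L_inv]
  omega

/-- recurrence of the plane orbit in a finite set forces the centre -/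
theorem cen_of_rec {g : H} (hg : D.e g ≠ 0) {Z : ℂ} {F : Finset ℂ} {n : ℕ} (hn : F.card ≤ n)
    (h : ∀ i ≤ n, D.act (g ^ i)⁻¹ Z ∈ F) : Z = D.cen g := by
  obtain ⟨i, hi, j, hj, hne, hij⟩ := Finset.exists_ne_map_eq_of_card_lt_of_maps_to
    (s := Finset.range (n + 1)) (t := F) (f := fun i => D.act (g ^ i)⁻¹ Z)
    (by rw [Finset.card_range]; omega)
    (fun i hi => h i (by have := Finset.mem_range.mp hi; omega))
  have key : ∀ i j : ℕ, i < j → D.act (g ^ i)⁻¹ Z = D.act (g ^ j)⁻¹ Z → Z = D.cen g := by
    intro i j hij h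
    have h1 := congrArg (D.act (g ^ j)) h
    rw [D.act_act_inv, ← D.act_mul] at h1
    have h2 : g ^ j * (g ^ i)⁻¹ = g ^ ((j : ℤ) - i) := by
      rw [zpow_sub, zpow_natCast, zpow_natCast]
    rw [h2] at h1
    have h3 : ((j : ℤ) - i) ≠ 0 := by omega
    rw [← D.cen_zpow hg h3]
    exact D.eq_cen (by rw [D.e_zpow]; exact mul_ne_zero h3 hg) h1
  rcases lt_or_gt_of_ne hne with h1 | h1
  · exact key i j h1 hij
  · exact key j i h1 hij.symm

end Geo

namespace Auto

variable {D : Geo H} (A : Auto D)

/-- no large backtracking after a nice state -/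
theorem gp_le {C : ℝ} (hC : ∀ (q : A.Q) (V : List A.S), A.Nice q → A.coacc (A.st q V) →
    (V.length : ℝ) ≤ C * (1 + D.L (A.val V))) {s : A.Q} (hs : A.Nice s) (Y V : List A.S)
    (hV : A.coacc (A.st s (Y ++ V))) :
    (D.L (A.val Y) : ℝ) + D.L (A.val V) ≤ D.L (A.val (Y ++ V)) + 2 * C := by
  obtain ⟨h, h1, h2, h3⟩ := D.branch (A.val Y) (A.val V)
  obtain ⟨t, ht, hvt⟩ := A.visit V h h2
  obtain ⟨t', ht', hyt⟩ := A.visit Y (A.val Y * h) h3
  have hY : A.val Y = A.val (Y.take t') * A.val (Y.drop t') := by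
    rw [← A.val_append, List.take_append_drop]
  have hyt' : D.L (A.val (Y.drop t') * h) = 0 := by
    have e : (A.val (Y.take t'))⁻¹ * (A.val Y * h) = A.val (Y.drop t') * h := by
      rw [hY]; group
    rwa [e] at hyt
  have hcoY : A.coacc (A.st s (Y.take t')) := by
    have : A.coacc (A.st (A.st s (Y.take t')) (Y.drop t' ++ V)) := by
      rw [← A.st_append, ← List.append_assoc, List.take_append_drop]
      exact hV
    exact A.coacc_of_st this
  have hco : A.coacc (A.st (A.st s (Y.take t')) (Y.drop t' ++ V.take t)) := by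
    rw [← A.st_append, ← List.append_assoc, List.take_append_drop]
    have : A.coacc (A.st (A.st s (Y ++ V.take t)) (V.drop t)) := by
      rw [← A.st_append, List.append_assoc, List.take_append_drop]
      exact hV
    exact A.coacc_of_st this
  have h4 := hC _ _ (A.Nice_st hs hcoY) hco
  have h5 : D.L (A.val (Y.drop t' ++ V.take t)) = 0 := by
    have h6 := D.L_mul (A.val (Y.drop t') * h) (h⁻¹ * A.val (V.take t))
    have e1 : A.val (Y.drop t') * h * (h⁻¹ * A.val (V.take t)) =
        A.val (Y.drop t' ++ V.take t) := by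
      rw [A.val_append]; group
    have e2 : D.L (h⁻¹ * A.val (V.take t)) = 0 := by
      rw [D.L_inv_mul_comm]; exact hvt
    rw [e1, hyt', e2] at h6
    omega
  rw [h5, List.length_append] at h4
  have h6 : D.L h ≤ (V.take t).length := by
    have h7 := D.L_mul (A.val (V.take t)) ((A.val (V.take t))⁻¹ * h)
    rw [mul_inv_cancel_left, hvt] at h7
    have := A.L_val_le (V.take t)
    omega
  have h7 : (D.L h : ℝ) ≤ (V.take t).length := by exact_mod_cast h6
  have h8 : 2 * (D.L h : ℝ) + D.L (A.val (Y ++ V)) = D.L (A.val Y) + D.L (A.val V) := by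
    rw [A.val_append]; exact_mod_cast h1
  push_cast at h4
  have h9 : (0 : ℝ) ≤ (Y.drop t').length := Nat.cast_nonneg _
  linarith

/-- segment of a word -/
theorem take_seg (W : List A.S) {a b : ℕ} (h : a ≤ b) :
    W.take b = W.take a ++ (W.drop a).take (b - a) := by
  obtain ⟨c, rfl⟩ := Nat.exists_eq_add_of_le h
  rw [List.take_add, Nat.add_sub_cancel_left]

theorem st_seg (W : List A.S) {a b : ℕ} (h : a ≤ b) :
    A.st (A.st A.q0 (W.take a)) ((W.drop a).take (b - a)) = A.st A.q0 (W.take b) := by
  rw [A.take_seg W h, A.st_append]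

theorem sc_seg (W : List A.S) {a b t : ℕ} (h1 : a ≤ t) (h2 : t ≤ b)
    (h : A.sc (A.st A.q0 (W.take a)) (A.st A.q0 (W.take b))) :
    A.sc (A.st A.q0 (W.take a)) (A.st A.q0 (W.take t)) := by
  rw [← A.st_seg W (h1.trans h2)] at h
  have := A.sc_take h (t - a)
  rw [List.take_take, min_eq_left (by omega), A.st_seg W h1] at this
  exact this

/-- the point `z*` is constant along a component without nice roots -/
theorem zstar (W : List A.S) {a b t : ℕ} (h1 : a ≤ t) (h2 : t ≤ b)
    (h : A.sc (A.st A.q0 (W.take a)) (A.st A.q0 (W.take b)))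
    (hv : A.Vert (A.st A.q0 (W.take a))) (hn : ¬ A.NiceRoot (A.st A.q0 (W.take a))) :
    D.act (A.val (W.take t)) (A.cs (A.st A.q0 (W.take t))) =
      D.act (A.val (W.take a)) (A.cs (A.st A.q0 (W.take a))) := by
  have h3 := A.sc_seg W h1 h2 h
  have h4 : A.sc (A.st A.q0 (W.take a))
      (A.st (A.st A.q0 (W.take a)) ((W.drop a).take (t - a))) := by
    rw [A.st_seg W h1]; exact h3
  have h5 := A.act_cs hv hn h4
  rw [A.st_seg W h1] at h5
  rw [← h5, ← D.act_mul, ← A.val_append, ← A.take_seg W h1]

theorem finite_cs (K : ℝ) : ∃ F : Finset ℂ, ∀ y, D.N y ≤ K → ∀ s, D.act y (A.cs s) ∈ F := by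
  classical
  have h := (D.finite_ball K).image2 (fun y s => D.act y (A.cs s)) (Set.finite_univ (α := A.Q))
  refine ⟨h.toFinset, fun y hy s => ?_⟩
  rw [Set.Finite.mem_toFinset]
  exact ⟨y, hy, s, Set.mem_univ _, rfl⟩

/-- two consecutive block ends with equal rank -/
theorem exists_rk_eq (f : ℕ → ℕ) (n : ℕ) (hf : ∀ i < n, f (i + 1) ≤ f i) (hpos : ∀ i ≤ n, 0 < f i)
    (hn : f 0 ≤ n) : ∃ i < n, f (i + 1) = f i := by
  by_contra hcon
  push Not at hcon
  have : ∀ i ≤ n, f i + i ≤ f 0 := by
    intro i
    induction i with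
    | zero => intro _; omega
    | succ i ih =>
      intro hi
      have h1 := ih (by omega)
      have h2 := hf i (by omega)
      have h3 := hcon i (by omega)
      omega
  have h1 := this n le_rfl
  have h2 := hpos n le_rfl
  omega

theorem lemK (hH : A.LemH) (hR : A.LemR) : A.LemK := by
  classical
  obtain ⟨CH, hCH⟩ := hH
  obtain ⟨C, hC0, hC⟩ := hR
  -- data for the nice states
  have hdata : ∀ p : A.Q, ∃ (s : A.Q) (u X A1 A2 : List A.S), A.Nice p →
      A.NiceRoot s ∧ A.st A.q0 u = s ∧ A.st s X = p ∧ A.st s A1 = s ∧ A.st s A2 = s ∧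
      D.e (A.val A1) ≠ 0 ∧ D.e (A.val A2) ≠ 0 ∧ D.cen (A.val A1) ≠ D.cen (A.val A2) := by
    intro p
    by_cases hp : A.Nice p
    · obtain ⟨_, s, X, hs, hX⟩ := hp
      obtain ⟨⟨⟨u, hu⟩, h2⟩, A1, A2, h3⟩ := id hs
      exact ⟨s, u, X, A1, A2, fun _ => ⟨hs, hu, hX, h3⟩⟩
    · exact ⟨p, [], [], [], [], fun h => absurd h hp⟩
  choose s u X A1 A2 hd using hdata
  refine ⟨(∑ p, (u p).length) + ⌈C⌉₊, fun K B p hp => ?_⟩
  obtain ⟨hs, hu, hX, hA1, hA2, he1, he2, hc⟩ := hd p hp
  obtain ⟨F, hF⟩ := A.finite_cs K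
  obtain ⟨n, hn1, hn2⟩ : ∃ n : ℕ, F.card ≤ n ∧ (CH : ℝ) + 2 * K < n := by
    obtain ⟨n, hn⟩ := exists_nat_gt ((CH : ℝ) + 2 * K)
    refine ⟨F.card + n, by omega, ?_⟩
    push_cast
    have : (0 : ℝ) ≤ F.card := Nat.cast_nonneg _
    linarith
  obtain ⟨M, hM⟩ := exists_nat_gt (C * (B + (u p).length + 1))
  set q := Fintype.card A.Q with hq
  set blk := rep (A1 p) n ++ rep (A2 p) n with hblk
  set Y := rep blk q ++ rep (A1 p) M ++ X p with hY
  have hst_blk : A.st (s p) blk = s p := by
    rw [hblk, A.st_append, A.st_rep hA1, A.st_rep hA2]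
  have hstY : A.st (s p) Y = p := by
    rw [hY, A.st_append, A.st_append, A.st_rep hst_blk, A.st_rep hA1, hX]
  have hA1ne : 1 ≤ (A1 p).length := by
    rcases Nat.eq_zero_or_pos (A1 p).length with h | h
    · exfalso
      apply he1
      rw [List.length_eq_zero_iff.mp h, A.val_nil, D.e_one]
    · exact h
  set t1 := (u p ++ rep blk q).length with ht1
  have hlenp0 : (u p ++ Y).length = t1 + M * (A1 p).length + (X p).length := by
    rw [ht1, hY]
    simp only [List.length_append, length_rep]
    ring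
  have hnice_s : A.Nice (s p) := A.NiceRoot_Nice hs
  -- part (i) for t ≥ |u|
  have hi1 : ∀ t, (u p).length ≤ t → t ≤ t1 → ∀ V, A.coacc (A.st p V) →
      B + (u p).length ≤ D.L ((A.val ((u p ++ Y).take t))⁻¹ * A.val (u p ++ Y ++ V)) := by
    intro t h1 h2 V hV
    have e1 : (A.val ((u p ++ Y).take t))⁻¹ * A.val (u p ++ Y ++ V) =
        A.val ((u p ++ Y).drop t ++ V) := by
      conv_lhs => rw [← List.take_append_drop t (u p ++ Y), List.append_assoc, A.val_append]
      simp
    have e2 : A.st A.q0 ((u p ++ Y).take t) = A.st (s p) (Y.take (t - (u p).length)) := by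
      rw [List.take_append, List.take_of_length_le h1, A.st_append, hu]
    have e3 : A.st (A.st A.q0 ((u p ++ Y).take t)) ((u p ++ Y).drop t ++ V) = A.st p V := by
      rw [A.st_append, A.take_append_drop_st, A.st_append, hu, hstY]
    have hnice : A.Nice (A.st A.q0 ((u p ++ Y).take t)) := by
      have hco : A.coacc (A.st A.q0 ((u p ++ Y).take t)) := by
        apply A.coacc_of_st (V := (u p ++ Y).drop t ++ V)
        rw [e3]; exact hV
      rw [e2] at hco ⊢
      exact A.Nice_st hnice_s hco
    have h3 := hC _ ((u p ++ Y).drop t ++ V) hnice (by rw [e3]; exact hV)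
    rw [e1]
    by_contra hlt
    push Not at hlt
    have h4 : M ≤ ((u p ++ Y).drop t ++ V).length := by
      rw [List.length_append, List.length_drop, hlenp0]
      have : M ≤ M * (A1 p).length := Nat.le_mul_of_pos_right _ hA1ne
      omega
    have h5 : (M : ℝ) ≤ ((u p ++ Y).drop t ++ V).length := by exact_mod_cast h4
    have h6 : (D.L (A.val ((u p ++ Y).drop t ++ V)) : ℝ) ≤ B + (u p).length := by
      exact_mod_cast hlt.le
    have h7 : C * (1 + D.L (A.val ((u p ++ Y).drop t ++ V))) ≤ C * (B + (u p).length + 1) := by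
      apply mul_le_mul_of_nonneg_left _ hC0
      linarith
    linarith
  refine ⟨u p ++ Y, t1, ?_, ?_, ?_, ?_, ?_⟩
  · rw [A.st_append, hu, hstY]
  · rw [hlenp0]; omega
  · -- (i)
    intro t ht V hV
    by_cases h1 : (u p).length ≤ t
    · have := hi1 t h1 ht V hV
      omega
    · push Not at h1
      have h2 := hi1 (u p).length le_rfl (by rw [ht1, List.length_append]; omega) V hV
      rw [List.take_left] at h2
      rw [List.take_append_of_le_length h1.le]
      have h3 := D.L_tri (A.val (u p)) (A.val ((u p).take t)) (A.val (u p ++ Y ++ V))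
      have h4 : D.L ((A.val (u p))⁻¹ * A.val ((u p).take t)) ≤ (u p).length := by
        rw [D.L_inv_mul_comm]
        have e : (A.val ((u p).take t))⁻¹ * A.val (u p) = A.val ((u p).drop t) := by
          conv_lhs => rw [← List.take_append_drop t (u p)]
          rw [A.val_append, List.take_append_drop]
          simp
        rw [e]
        have := A.L_val_le ((u p).drop t)
        rw [List.length_drop] at this
        omega
      omega
  · -- (ii)
    intro V hV
    have h1 := A.gp_le hC hnice_s Y V (by rw [A.st_append, hstY]; exact hV)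
    have h2 : D.L (A.val (u p ++ Y)) ≤ (u p).length + D.L (A.val Y) := by
      rw [A.val_append]
      have := D.L_mul (A.val (u p)) (A.val Y)
      have := A.L_val_le (u p)
      omega
    have h3 : D.L (A.val (Y ++ V)) ≤ (u p).length + D.L (A.val (u p ++ Y ++ V)) := by
      have h4 := D.L_mul (A.val (u p))⁻¹ (A.val (u p ++ Y ++ V))
      have h5 : (A.val (u p))⁻¹ * A.val (u p ++ Y ++ V) = A.val (Y ++ V) := by
        rw [List.append_assoc (u p) Y V, A.val_append (u p), inv_mul_cancel_left]
      rw [h5, D.L_inv] at h4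
      have := A.L_val_le (u p)
      omega
    have h4 : (u p).length ≤ ∑ p, (u p).length :=
      Finset.single_le_sum (f := fun p => (u p).length) (fun _ _ => Nat.zero_le _)
        (Finset.mem_univ p)
    have h5 : C ≤ ⌈C⌉₊ := Nat.le_ceil C
    have h6 : (D.L (A.val Y) : ℝ) + D.L (A.val V) ≤ D.L (A.val (Y ++ V)) + 2 * (⌈C⌉₊ : ℝ) := by
      linarith
    have h7 : D.L (A.val Y) + D.L (A.val V) ≤ D.L (A.val (Y ++ V)) + 2 * ⌈C⌉₊ := by
      exact_mod_cast h6
    omega
  · -- (iii)
    intro W hW hlen hclose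
    by_contra hnn
    -- the states before are not nice
    have hnot : ∀ t ≤ t1, ¬ A.Nice (A.st A.q0 (W.take t)) := by
      intro t ht h
      apply hnn
      rw [← A.st_seg W ht]
      apply A.Nice_st h
      rw [A.st_seg W ht]
      exact (A.live_of_mem hW t1).2
    have hnot' : ∀ t ≤ t1, ¬ A.NiceRoot (A.st A.q0 (W.take t)) := fun t ht h =>
      hnot t ht (A.NiceRoot_Nice h)
    have hclose' : ∀ w1 w2, u p ++ Y = w1 ++ w2 → w1.length ≤ t1 →
        D.N ((A.val w1)⁻¹ * A.val (W.take w1.length)) ≤ K := by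
      intro w1 w2 h1 h2
      have := hclose w1.length h2
      rwa [h1, List.take_left] at this
    -- block with constant rank
    obtain ⟨j, hj, hrk⟩ := exists_rk_eq
      (fun j => A.rk (A.st A.q0 (W.take (u p ++ rep blk j).length))) q (by
        intro i hi
        have h1 : (u p ++ rep blk i).length ≤ (u p ++ rep blk (i + 1)).length := by
          simp only [List.length_append, length_rep]
          nlinarith
        rw [← A.st_seg W h1]
        exact A.rk_le _ _) (fun i _ => A.rk_pos _) (by
        exact A.rk_le_card _)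
    set a := (u p ++ rep blk j).length with ha
    set b := (u p ++ rep blk (j + 1)).length with hb
    have hab : b = a + n * (A1 p).length + n * (A2 p).length := by
      rw [ha, hb]
      simp only [List.length_append, length_rep, hblk]
      ring
    have hbt : b ≤ t1 := by
      rw [hb, ht1]
      simp only [List.length_append, length_rep]
      have : (j + 1) * (blk.length) ≤ q * blk.length := Nat.mul_le_mul_right _ (by omega)
      omega
    have hsc : A.sc (A.st A.q0 (W.take a)) (A.st A.q0 (W.take b)) := by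
      have h1 : a ≤ b := by omega
      rw [← A.st_seg W h1] at hrk ⊢
      exact A.sc_of_rk_eq hrk
    set B0 := A.val (u p ++ rep blk j) with hB0
    -- decompositions
    have hdec : rep blk q = rep blk j ++ (blk ++ rep blk (q - (j + 1))) := by
      rw [← rep_succ, ← rep_add]
      congr 1
      omega
    have hdec0 : u p ++ Y = u p ++ rep blk j ++ blk ++ rep blk (q - (j + 1)) ++
        rep (A1 p) M ++ X p := by
      rw [hY, hdec]
      simp only [List.append_assoc]
    have hw1 : ∀ i ≤ n, D.N ((B0 * A.val (A1 p) ^ i)⁻¹ *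
        A.val (W.take (a + i * (A1 p).length))) ≤ K := by
      intro i hi
      have e1 : rep (A1 p) n = rep (A1 p) i ++ rep (A1 p) (n - i) := by
        rw [← rep_add]; congr 1; omega
      have h1 := hclose' (u p ++ rep blk j ++ rep (A1 p) i)
        (rep (A1 p) (n - i) ++ rep (A2 p) n ++ rep blk (q - (j + 1)) ++ rep (A1 p) M ++ X p) (by
          rw [hdec0]
          generalize rep blk j = r1
          generalize rep blk (q - (j + 1)) = r2
          rw [hblk, e1]
          simp only [List.append_assoc]) (by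
          rw [List.length_append, ← ha, length_rep]
          have : i * (A1 p).length ≤ n * (A1 p).length := Nat.mul_le_mul_right _ hi
          omega)
      rw [List.length_append, ← ha, length_rep, A.val_append, A.val_rep, ← hB0] at h1
      exact h1
    have hw2 : ∀ i ≤ n, D.N ((B0 * A.val (A1 p) ^ n * A.val (A2 p) ^ i)⁻¹ *
        A.val (W.take (a + n * (A1 p).length + i * (A2 p).length))) ≤ K := by
      intro i hi
      have e1 : rep (A2 p) n = rep (A2 p) i ++ rep (A2 p) (n - i) := by
        rw [← rep_add]; congr 1; omega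
      have h1 := hclose' (u p ++ rep blk j ++ rep (A1 p) n ++ rep (A2 p) i)
        (rep (A2 p) (n - i) ++ rep blk (q - (j + 1)) ++ rep (A1 p) M ++ X p) (by
          rw [hdec0]
          generalize rep blk j = r1
          generalize rep blk (q - (j + 1)) = r2
          rw [hblk, e1]
          simp only [List.append_assoc]) (by
          rw [List.length_append, List.length_append, ← ha, length_rep, length_rep]
          have : i * (A2 p).length ≤ n * (A2 p).length := Nat.mul_le_mul_right _ hi
          omega)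
      rw [List.length_append, List.length_append, ← ha, length_rep, length_rep, A.val_append,
        A.val_append, A.val_rep, A.val_rep, ← hB0] at h1
      exact h1
    -- the component is vertical
    have hvert : A.Vert (A.st A.q0 (W.take a)) := by
      by_contra hnv
      have h1 : a ≤ a + n * (A1 p).length := by omega
      have h2 : a + n * (A1 p).length ≤ b := by omega
      have h3 := A.sc_seg W h1 h2 hsc
      rw [← A.st_seg W h1] at h3
      have h4 := hCH _ _ (A.live_of_mem hW a) hnv h3
      have y0 := hw1 0 (by omega)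
      have yn := hw1 n le_rfl
      rw [pow_zero, mul_one, Nat.zero_mul, Nat.add_zero] at y0
      have e0 : |(D.e (B0⁻¹ * A.val (W.take a)) : ℝ)| ≤ K := by
        have := D.e_le (B0⁻¹ * A.val (W.take a))
        have h5 : |(D.e (B0⁻¹ * A.val (W.take a)) : ℝ)| ≤ D.L (B0⁻¹ * A.val (W.take a)) := by
          exact_mod_cast this
        exact h5.trans ((D.L_le_N _).trans y0)
      have en : |(D.e ((B0 * A.val (A1 p) ^ n)⁻¹ *
          A.val (W.take (a + n * (A1 p).length))) : ℝ)| ≤ K := by
        have := D.e_le ((B0 * A.val (A1 p) ^ n)⁻¹ * A.val (W.take (a + n * (A1 p).length)))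
        have h5 : |(D.e ((B0 * A.val (A1 p) ^ n)⁻¹ *
            A.val (W.take (a + n * (A1 p).length))) : ℝ)| ≤ D.L ((B0 * A.val (A1 p) ^ n)⁻¹ *
            A.val (W.take (a + n * (A1 p).length))) := by
          exact_mod_cast this
        exact h5.trans ((D.L_le_N _).trans yn)
      rw [D.e_mul, D.e_inv] at e0 en
      rw [D.e_mul, D.e_pow] at en
      have h5 : D.e (A.val ((W.drop a).take (a + n * (A1 p).length - a))) =
          D.e (A.val (W.take (a + n * (A1 p).length))) - D.e (A.val (W.take a)) := by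
        rw [A.take_seg W h1, A.val_append, D.e_mul]
        ring
      rw [h5] at h4
      have h6 : |((D.e (A.val (W.take (a + n * (A1 p).length))) - D.e (A.val (W.take a)) : ℤ) : ℝ)|
          ≤ CH := by exact_mod_cast h4
      push_cast at h6 e0 en
      have h7 : (1 : ℝ) ≤ |(D.e (A.val (A1 p)) : ℝ)| := by
        have : (1 : ℤ) ≤ |D.e (A.val (A1 p))| := Int.one_le_abs he1
        exact_mod_cast this
      have h8 : (n : ℝ) * |(D.e (A.val (A1 p)) : ℝ)| ≤ CH + 2 * K := by
        rw [← abs_of_nonneg (Nat.cast_nonneg n : (0 : ℝ) ≤ n), ← abs_mul]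
        have h9 := abs_le.mp h6
        have h10 := abs_le.mp e0
        have h11 := abs_le.mp en
        rw [abs_le]
        constructor <;> linarith [h9.1, h9.2, h10.1, h10.2, h11.1, h11.2]
      have h9 : (n : ℝ) ≤ n * |(D.e (A.val (A1 p)) : ℝ)| :=
        le_mul_of_one_le_right (Nat.cast_nonneg n) h7
      linarith
    -- the point z*
    set zs := D.act (A.val (W.take a)) (A.cs (A.st A.q0 (W.take a))) with hzs
    have hz : ∀ t, a ≤ t → t ≤ b → D.act (A.val (W.take t)) (A.cs (A.st A.q0 (W.take t))) = zs :=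
      fun t h1 h2 => A.zstar W h1 h2 hsc hvert (hnot' a (by omega))
    have c1 : D.act B0⁻¹ zs = D.cen (A.val (A1 p)) := by
      apply D.cen_of_rec he1 hn1
      intro i hi
      have h1 := hF _ (hw1 i hi) (A.st A.q0 (W.take (a + i * (A1 p).length)))
      have h2 : i * (A1 p).length ≤ n * (A1 p).length := Nat.mul_le_mul_right _ hi
      rw [D.act_mul, hz _ (by omega) (by omega), mul_inv_rev, D.act_mul] at h1
      exact h1
    have c2 : D.act (B0 * A.val (A1 p) ^ n)⁻¹ zs = D.cen (A.val (A2 p)) := by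
      apply D.cen_of_rec he2 hn1
      intro i hi
      have h1 := hF _ (hw2 i hi)
        (A.st A.q0 (W.take (a + n * (A1 p).length + i * (A2 p).length)))
      have h2 : i * (A2 p).length ≤ n * (A2 p).length := Nat.mul_le_mul_right _ hi
      rw [D.act_mul, hz _ (by omega) (by omega), mul_inv_rev, D.act_mul] at h1
      exact h1
    apply hc
    rw [← c2, mul_inv_rev, D.act_mul, c1]
    have h1 := D.act_zpow_fix (D.act_cen he1) (-(n : ℤ))
    rw [zpow_neg, zpow_natCast] at h1
    exact h1.symm

end Auto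

end H57.QI
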